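import Mathlib
import Pool.Agent.V11112.Groth
import Pool.Agent.V11112.Dyn
import Pool.Agent.V11112.Fix

/-!
# Nonexpansive fixed points for semigroups with an invariant mean on the weakly almost periodic
functions

Every semitopological semigroup with a left invariant mean on `WAP(S)` has the fixed point property
(F); no separability is needed.

Take a minimal closed convex invariant set `K` and in it a minimal closed invariant set `Y`. The mean
gives an invariant functional on `C(Y)`, also invariant under all members of the closure `Σ` of the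
semigroup, and it charges every nonempty open set. So every member of `Σ` maps `Y` onto itself, and
then `Σ` acts on `Y` as a group of isometries for each seminorm. A set with infinitely many separated
points would give such a set in the orbit closure of a countable subgroup, which is separable, and
Baire's theorem excludes that. So `Y` is totally bounded for each seminorm and the classical argument
with normal structure applies.
-/

set_option autoImplicit false

namespace Pool.Agent.Results.MP_c68506_an.Nonexpansive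

open Set Filter Topology BoundedContinuousFunction Pool.Agent.V11112

universe u v w

/-! ### Definitions -/

/-- `f` is weakly almost periodic: its left orbit is relatively weakly compact in `C_b(S)`. -/
def IsWAP {S : Type*} [Semigroup S] [TopologicalSpace S] (f : S →ᵇ ℝ) : Prop :=
  IsCompact (closure (toWeakSpace ℝ (S →ᵇ ℝ) '' {g | ∃ a : S, ∀ t : S, g t = f (a * t)}))

/-- `m` is a left invariant mean on `WAP(S)` (its values elsewhere are irrelevant). -/
structure IsLIM {S : Type*} [Semigroup S] [TopologicalSpace S] (m : (S →ᵇ ℝ) → ℝ) : Prop where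
  add : ∀ f g, IsWAP f → IsWAP g → m (f + g) = m f + m g
  smul : ∀ (c : ℝ) f, IsWAP f → m (c • f) = c * m f
  nonneg : ∀ f, IsWAP f → (∀ t, 0 ≤ f t) → 0 ≤ m f
  one : m 1 = 1
  inv : ∀ (a : S) f g, IsWAP f → (∀ t, g t = f (a * t)) → m g = m f

/-- `T` is a weakly separately continuous, weakly quasi-equicontinuous, nonexpansive representation
of `S` on the set `C`, which carries the weak topology of the space `E` with seminorms `p`. -/
structure IsRep {S : Type*} [Semigroup S] [TopologicalSpace S] {𝕜 : Type*} [RCLike 𝕜]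
    {E : Type*} [AddCommGroup E] [Module 𝕜 E] [TopologicalSpace E] {ι : Type*}
    (p : SeminormFamily 𝕜 E ι) (C : Set (WeakSpace 𝕜 E)) (T : S → C → C) : Prop where
  mul : ∀ s t, T (s * t) = T s ∘ T t
  continuous_left : ∀ x, Continuous fun s => T s x
  continuous_right : ∀ s, Continuous (T s)
  quasi_equicontinuous : ∀ τ ∈ closure (range T), Continuous τ
  nonexpansive : ∀ i s x y,
    p i ((toWeakSpace 𝕜 E).symm (T s x) - (toWeakSpace 𝕜 E).symm (T s y)) ≤
      p i ((toWeakSpace 𝕜 E).symm x - (toWeakSpace 𝕜 E).symm y)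

/-- Property (F): every such representation on a nonempty weakly compact convex set of a Hausdorff
locally convex space over `𝕜` has a common fixed point. -/
def PropertyF (S : Type u) [Semigroup S] [TopologicalSpace S] (𝕜 : Type*) [RCLike 𝕜] : Prop :=
  ∀ (E : Type v) [AddCommGroup E] [Module 𝕜 E] [Module ℝ E] [IsScalarTower ℝ 𝕜 E]
    [TopologicalSpace E] [T2Space E] (ι : Type w) (p : SeminormFamily 𝕜 E ι), WithSeminorms p →
    ∀ C : Set (WeakSpace 𝕜 E), C.Nonempty → Convex ℝ C → IsCompact C →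
      ∀ T : S → C → C, IsRep p C T → ∃ x : C, ∀ s, T s x = x

/-! ### The invariant functional -/

section mean

variable {S : Type*} [Semigroup S] [TopologicalSpace S] {X : Type*} [TopologicalSpace X]
  [CompactSpace X] [T2Space X]

/-- The function `s ↦ φ (T s x)` -/
noncomputable def pull (T : S → X → X) (x : X) (hx : Continuous fun s => T s x) : C(X, ℝ) →L[ℝ] (S →ᵇ ℝ) :=
  LinearMap.mkContinuous
    { toFun := fun φ => BoundedContinuousFunction.ofNormedAddCommGroup (fun s => φ (T s x))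
        (φ.continuous.comp hx) ‖φ‖ fun s => φ.norm_coe_le_norm _
      map_add' := fun φ ψ => by ext s; rfl
      map_smul' := fun c φ => by ext s; rfl } 1 fun φ => by
        rw [one_mul]
        exact (BoundedContinuousFunction.norm_le (norm_nonneg _)).2 fun s => φ.norm_coe_le_norm _

theorem pull_apply (T : S → X → X) (x : X) (hx : Continuous fun s => T s x) (φ : C(X, ℝ)) (s : S) :
    pull T x hx φ s = φ (T s x) := rfl

theorem isWAP_pull {T : S → X → X} (hmul : ∀ s t, T (s * t) = T s ∘ T t)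
    (hqe : ∀ τ ∈ closure (range T), Continuous τ) {x : X} (hx : Continuous fun s => T s x)
    (φ : C(X, ℝ)) : IsWAP (pull T x hx φ) := by
  haveI : CompactSpace (closure (range T)) :=
    isCompact_iff_compactSpace.1 isClosed_closure.isCompact
  let F : closure (range T) → C(X, ℝ) := fun τ => φ.comp ⟨τ.1, hqe _ τ.2⟩
  have hF : ∀ y, Continuous fun τ => F τ y := fun y =>
    φ.continuous.comp ((continuous_apply y).comp continuous_subtype_val)
  have hJ : Continuous fun τ : closure (range T) => toWeakSpace ℝ (S →ᵇ ℝ) (pull T x hx (F τ)) := by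
    refine WeakBilin.continuous_of_continuous_eval _ fun Λ => ?_
    exact Groth.continuous_functional F hF ‖φ‖ (fun τ y => φ.norm_coe_le_norm _)
      (Λ.comp (pull T x hx))
  have hc : IsCompact (range fun τ : closure (range T) =>
      toWeakSpace ℝ (S →ᵇ ℝ) (pull T x hx (F τ))) := isCompact_range hJ
  refine hc.of_isClosed_subset isClosed_closure (closure_minimal ?_ hc.isClosed)
  rintro _ ⟨g, ⟨a, ha⟩, rfl⟩
  refine ⟨⟨T a, subset_closure ⟨a, rfl⟩⟩, congrArg (toWeakSpace ℝ (S →ᵇ ℝ)) ?_⟩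
  ext t
  rw [pull_apply, ha, pull_apply, hmul]
  rfl

theorem exists_functional {m : (S →ᵇ ℝ) → ℝ} (hm : IsLIM m) {T : S → X → X}
    (hmul : ∀ s t, T (s * t) = T s ∘ T t)
    (hqe : ∀ τ ∈ closure (range T), Continuous τ) {x : X} (hx : Continuous fun s => T s x) :
    ∃ Λ : C(X, ℝ) →L[ℝ] ℝ, (∀ φ : C(X, ℝ), (∀ y, 0 ≤ φ y) → 0 ≤ Λ φ) ∧ Λ 1 = 1 ∧
      (∀ (τ : X → X) (hτ : τ ∈ closure (range T)) (φ : C(X, ℝ)), Λ (φ.comp ⟨τ, hqe τ hτ⟩) = Λ φ) ∧
      ∀ φ : C(X, ℝ), (∀ s, φ (T s x) = 0) → Λ φ = 0 := by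
  have hW := isWAP_pull hmul hqe hx
  let Λ₀ : C(X, ℝ) →ₗ[ℝ] ℝ :=
    { toFun := fun φ => m (pull T x hx φ)
      map_add' := fun φ ψ => by
        rw [map_add]
        exact hm.add _ _ (hW φ) (hW ψ)
      map_smul' := fun c φ => by
        rw [map_smul]
        exact hm.smul c _ (hW φ) }
  have hpos : ∀ φ : C(X, ℝ), (∀ y, 0 ≤ φ y) → 0 ≤ Λ₀ φ := fun φ hφ =>
    hm.nonneg _ (hW φ) fun t => hφ _
  have hone : Λ₀ 1 = 1 := by
    have : pull T x hx 1 = 1 := by ext s; rfl
    change m (pull T x hx 1) = 1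
    rw [this]
    exact hm.one
  have hbound : ∀ φ : C(X, ℝ), ‖Λ₀ φ‖ ≤ 1 * ‖φ‖ := by
    intro φ
    have h1 := hpos (‖φ‖ • 1 - φ) fun y => by
      have := (le_abs_self _).trans (φ.norm_coe_le_norm y)
      simpa using this
    have h2 := hpos (‖φ‖ • 1 + φ) fun y => by
      have := (neg_abs_le (φ y))
      have h3 := φ.norm_coe_le_norm y
      rw [Real.norm_eq_abs] at h3
      simp only [ContinuousMap.add_apply, ContinuousMap.smul_apply, ContinuousMap.one_apply,
        smul_eq_mul, mul_one]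
      linarith
    rw [map_sub, map_smul, hone, smul_eq_mul, mul_one] at h1
    rw [map_add, map_smul, hone, smul_eq_mul, mul_one] at h2
    rw [one_mul, Real.norm_eq_abs, abs_le]
    constructor <;> linarith
  let Λ : C(X, ℝ) →L[ℝ] ℝ := Λ₀.mkContinuous 1 hbound
  have hΛ : ∀ φ, Λ φ = m (pull T x hx φ) := fun φ => rfl
  refine ⟨Λ, hpos, hone, ?_, ?_⟩
  · intro τ hτ φ
    haveI : CompactSpace (closure (range T)) :=
      isCompact_iff_compactSpace.1 isClosed_closure.isCompact
    let F : closure (range T) → C(X, ℝ) := fun τ => φ.comp ⟨τ.1, hqe _ τ.2⟩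
    have hF : ∀ y, Continuous fun τ => F τ y := fun y =>
      φ.continuous.comp ((continuous_apply y).comp continuous_subtype_val)
    have hc : Continuous fun τ : closure (range T) => Λ (F τ) :=
      Groth.continuous_functional F hF ‖φ‖ (fun τ y => φ.norm_coe_le_norm _) Λ
    have hcl : IsClosed {τ : closure (range T) | Λ (F τ) = Λ φ} := isClosed_eq hc continuous_const
    have hdense : closure {τ : closure (range T) | τ.1 ∈ range T} = univ := by
      rw [eq_univ_iff_forall]
      intro τ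
      rw [closure_subtype]
      have : (Subtype.val '' {τ : closure (range T) | τ.1 ∈ range T}) = range T := by
        ext g
        constructor
        · rintro ⟨f, hf, rfl⟩
          exact hf
        · intro hg
          exact ⟨⟨g, subset_closure hg⟩, hg, rfl⟩
      rw [this]
      exact τ.2
    have hsub : {τ : closure (range T) | τ.1 ∈ range T} ⊆ {τ | Λ (F τ) = Λ φ} := by
      rintro ⟨_, hτ'⟩ ⟨a, rfl⟩
      change m (pull T x hx (F ⟨T a, hτ'⟩)) = m (pull T x hx φ)
      refine hm.inv a _ _ (hW φ) fun t => ?_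
      rw [pull_apply, pull_apply, hmul]
      rfl
    have := closure_minimal hsub hcl
    rw [hdense] at this
    exact this (mem_univ ⟨τ, hτ⟩)
  · intro φ hφ
    have h0 : pull T x hx φ = (0 : ℝ) • pull T x hx φ := by
      ext s
      rw [zero_smul]
      exact hφ s
    rw [hΛ, h0, hm.smul 0 _ (hW φ), zero_mul]

/-- All members of the closure map a minimal closed invariant set onto itself. -/
theorem image_eq {m : (S →ᵇ ℝ) → ℝ} (hm : IsLIM m) {T : S → X → X}
    (hmul : ∀ s t, T (s * t) = T s ∘ T t) (hleft : ∀ x, Continuous fun s => T s x)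
    (hqe : ∀ τ ∈ closure (range T), Continuous τ) {Y : Set X} (hne : Y.Nonempty) (hY : IsClosed Y)
    (hinv : ∀ s, ∀ y ∈ Y, T s y ∈ Y)
    (hmin : ∀ L : Set X, L.Nonempty → IsClosed L → (∀ s, ∀ y ∈ L, T s y ∈ L) → L ⊆ Y → L = Y) :
    ∀ τ ∈ closure (range T), τ '' Y = Y := by
  obtain ⟨x, hx⟩ := hne
  obtain ⟨Λ, hpos, hone, hΛinv, hΛ0⟩ := exists_functional hm hmul hqe (hleft x)
  have hqT : ∀ s, T s ∈ closure (range T) := fun s => subset_closure ⟨s, rfl⟩
  have hΛY : ∀ φ : C(X, ℝ), (∀ y ∈ Y, φ y = 0) → Λ φ = 0 := fun φ hφ =>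
    hΛ0 φ fun s => hφ _ (hinv s x hx)
  -- the support
  let Z : Set X := {y | ∀ φ : C(X, ℝ), (∀ z, 0 ≤ φ z) → 0 < φ y → 0 < Λ φ}
  have hZc : IsClosed Z := by
    have : Z = ⋂ (φ : C(X, ℝ)) (_ : (∀ z, 0 ≤ φ z) ∧ ¬ 0 < Λ φ), {y | φ y ≤ 0} := by
      ext y
      simp only [Z, mem_ofPred_eq, mem_iInter]
      constructor
      · intro h φ hφ
        by_contra hcon
        exact hφ.2 (h φ hφ.1 (not_le.1 hcon))
      · intro h φ hφ hy
        by_contra hcon
        exact absurd (h φ ⟨hφ, hcon⟩) (not_le.2 hy)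
    rw [this]
    exact isClosed_iInter fun φ => isClosed_iInter fun _ => isClosed_le φ.continuous continuous_const
  have hZY : Z ⊆ Y := by
    intro y hy
    by_contra hyY
    obtain ⟨φ, h0, h1, h01⟩ := exists_continuous_zero_one_of_isClosed hY (isClosed_singleton (x := y))
      (by rw [Set.disjoint_singleton_right]; exact hyY)
    have h2 : Λ φ = 0 := hΛY φ fun z hz => h0 hz
    have h3 := hy φ (fun z => (h01 z).1) (by rw [h1 rfl]; exact one_pos)
    linarith
  have hZne : Z.Nonempty := by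
    by_contra hcon
    rw [Set.not_nonempty_iff_eq_empty] at hcon
    have h1 : ∀ y : X, ∃ φ : C(X, ℝ), (∀ z, 0 ≤ φ z) ∧ 0 < φ y ∧ Λ φ ≤ 0 := by
      intro y
      have : y ∉ Z := by rw [hcon]; exact notMem_empty y
      simp only [Z, mem_ofPred_eq] at this
      push Not at this
      obtain ⟨φ, h1, h2, h3⟩ := this
      exact ⟨φ, h1, h2, h3⟩
    choose φ hφ1 hφ2 hφ3 using h1
    obtain ⟨t, ht⟩ := isCompact_univ.elim_finite_subcover (fun y => {z | 0 < φ y z})
      (fun y => isOpen_lt continuous_const (φ y).continuous)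
      (fun y _ => mem_iUnion.2 ⟨y, hφ2 y⟩)
    set ψ : C(X, ℝ) := ∑ y ∈ t, φ y with hψ
    have hψpos : ∀ z, 0 < ψ z := by
      intro z
      obtain ⟨y, hy, hyz⟩ := mem_iUnion₂.1 (ht (mem_univ z))
      rw [hψ, ContinuousMap.sum_apply]
      exact Finset.sum_pos' (fun y _ => hφ1 y z) ⟨y, hy, hyz⟩
    obtain ⟨z₀, -, hz₀⟩ := isCompact_univ.exists_isMinOn ⟨x, mem_univ x⟩ ψ.continuous.continuousOn
    have h2 := hpos (ψ - ψ z₀ • 1) fun z => by
      have := hz₀ (mem_univ z)
      have h4 : ψ z₀ ≤ ψ z := this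
      simpa using h4
    rw [map_sub, map_smul, hone, smul_eq_mul, mul_one] at h2
    have h3 : Λ ψ ≤ 0 := by
      rw [hψ, map_sum]
      exact Finset.sum_nonpos fun y _ => hφ3 y
    have := hψpos z₀
    linarith
  have hZinv : ∀ s, ∀ y ∈ Z, T s y ∈ Z := by
    intro s y hy φ hφ hpos'
    rw [← hΛinv (T s) (hqT s) φ]
    exact hy _ (fun z => hφ _) hpos'
  have hZeq : Z = Y := hmin Z hZne hZc hZinv hZY
  -- members of the closure preserve `Y`
  have hYinv : ∀ τ ∈ closure (range T), ∀ y ∈ Y, τ y ∈ Y := by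
    intro τ hτ y hy
    have hcl : IsClosed {τ : X → X | τ y ∈ Y} := hY.preimage (continuous_apply y)
    have hsub : range T ⊆ {τ : X → X | τ y ∈ Y} := by
      rintro _ ⟨s, rfl⟩
      exact hinv s y hy
    exact closure_minimal hsub hcl hτ
  intro τ hτ
  refine subset_antisymm ?_ ?_
  · rintro _ ⟨y, hy, rfl⟩
    exact hYinv τ hτ y hy
  · intro y hy
    by_contra hyτ
    have hτY : IsClosed (τ '' Y) := (hY.isCompact.image (hqe τ hτ)).isClosed
    obtain ⟨φ, h0, h1, h01⟩ := exists_continuous_zero_one_of_isClosed hτY (isClosed_singleton (x := y))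
      (by rw [Set.disjoint_singleton_right]; exact hyτ)
    rw [← hZeq] at hy
    have h3 := hy φ (fun z => (h01 z).1) (by rw [h1 rfl]; exact one_pos)
    rw [← hΛinv τ hτ φ] at h3
    have h4 : Λ (φ.comp ⟨τ, hqe τ hτ⟩) = 0 := hΛY _ fun z hz => h0 ⟨z, hz, rfl⟩
    linarith

end mean

/-- **Result.** Every semitopological semigroup `S` for which `WAP(S)` has a left invariant mean has
property (F). -/
theorem result (S : Type u) [Semigroup S] [TopologicalSpace S] [T2Space S]
    (_hl : ∀ a : S, Continuous fun s => a * s) (_hr : ∀ a : S, Continuous fun s => s * a)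
    (hm : ∃ m : (S →ᵇ ℝ) → ℝ, IsLIM m) (𝕜 : Type*) [RCLike 𝕜] : PropertyF.{u, v, w} S 𝕜 := by
  obtain ⟨m, hm⟩ := hm
  intro E _ _ _ _ _ _ ι p hp C hCne hCconv hCc T hT
  haveI := hp.topologicalAddGroup
  haveI := hp.toLocallyConvexSpace
  haveI := hp.continuousSMul
  haveI : SeparatingDual 𝕜 E := ⟨fun x hx ↦
    RCLike.geometric_hahn_banach_point_point hx |>.imp fun f hf hf' ↦ by simp [hf'] at hf⟩
  haveI : CompactSpace C := isCompact_iff_compactSpace.1 hCc
  haveI : Nonempty C := hCne.to_subtype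
  let v : WeakSpace 𝕜 E →ₗ[ℝ] E :=
    { toFun := fun x => (toWeakSpace 𝕜 E).symm x
      map_add' := fun x y => rfl
      map_smul' := fun c x => rfl }
  have hv : ∀ A : Set E, Convex ℝ A → IsClosed A → IsClosed (v ⁻¹' A) := by
    intro A hA hAc
    have h1 := hA.toWeakSpace_closure 𝕜
    rw [hAc.closure_eq] at h1
    have h2 : v ⁻¹' A = toWeakSpace 𝕜 E '' A := by
      rw [LinearEquiv.image_eq_preimage_symm]
      rfl
    rw [h2, h1]
    exact isClosed_closure
  have hvinj : ∀ x y : C, v x.1 = v y.1 → x = y := fun x y h =>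
    Subtype.ext ((toWeakSpace 𝕜 E).symm.injective h)
  rcases isEmpty_or_nonempty S with hS | hS
  · exact ⟨Classical.arbitrary C, fun s => hS.elim s⟩
  -- minimal sets
  obtain ⟨K, -, hKne, hKc, ⟨hKconv, hKinv⟩, hKmin⟩ := Dyn.exists_minimal (X := C)
    (fun L => Convex ℝ (Subtype.val '' L) ∧ ∀ s, ∀ y ∈ L, T s y ∈ L) (by
      intro c hc
      refine ⟨?_, fun s y hy L hL => (hc L hL).2 s y (hy L hL)⟩
      rintro _ ⟨x, hx, rfl⟩ _ ⟨y, hy, rfl⟩ a b ha hb hab
      refine ⟨⟨a • x.1 + b • y.1, hCconv x.2 y.2 ha hb hab⟩, fun L hL => ?_, rfl⟩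
      obtain ⟨z, hz, hzeq⟩ := (hc L hL).1 ⟨x, hx L hL, rfl⟩ ⟨y, hy L hL, rfl⟩ ha hb hab
      have : z = ⟨a • x.1 + b • y.1, hCconv x.2 y.2 ha hb hab⟩ := Subtype.ext hzeq
      rwa [← this]) univ_nonempty isClosed_univ (by
      refine ⟨?_, fun s y _ => mem_univ _⟩
      rw [image_univ, Subtype.range_coe]
      exact hCconv)
  obtain ⟨Y, hYK, hYne, hYc, hYinv, hYmin⟩ := Dyn.exists_minimal (X := C)
    (fun L => ∀ s, ∀ y ∈ L, T s y ∈ L) (by
      intro c hc s y hy L hL
      exact hc L hL s y (hy L hL)) hKne hKc hKinv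
  have himg := image_eq hm hT.mul hT.continuous_left hT.quasi_equicontinuous hYne hYc hYinv
    (fun L h1 h2 h3 h4 => hYmin L h1 h2 h3 h4)
  -- the closed semigroup
  have hcomp : ∀ σ ∈ closure (range T), ∀ τ ∈ closure (range T), σ ∘ τ ∈ closure (range T) := by
    refine Dyn.comp_mem_closure ?_ ?_
    · rintro _ ⟨s, rfl⟩ _ ⟨t, rfl⟩
      exact ⟨s * t, hT.mul s t⟩
    · rintro _ ⟨s, rfl⟩
      exact hT.continuous_right s
  have htrans : ∀ y ∈ Y, ∀ z ∈ Y, ∃ τ ∈ closure (range T), τ y = z := by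
    intro y hy z hz
    have hL : (fun τ : C → C => τ y) '' closure (range T) = Y := by
      refine hYmin _ ?_ ?_ ?_ ?_
      · exact ⟨_, T (Classical.arbitrary S), subset_closure ⟨_, rfl⟩, rfl⟩
      · exact (isClosed_closure.isCompact.image (continuous_apply y)).isClosed
      · rintro s _ ⟨τ, hτ, rfl⟩
        exact ⟨T s ∘ τ, hcomp _ (subset_closure ⟨s, rfl⟩) _ hτ, rfl⟩
      · rintro _ ⟨τ, hτ, rfl⟩
        rw [← himg τ hτ]
        exact ⟨y, hy, rfl⟩
    rw [← hL] at hz
    obtain ⟨τ, hτ, h⟩ := hz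
    exact ⟨τ, hτ, h⟩
  -- the distances
  have hsub : Y.Subsingleton := by
    intro y₁ hy₁ y₂ hy₂
    by_contra hne
    have hvne : v y₁.1 - v y₂.1 ≠ 0 := fun h => hne (hvinj _ _ (sub_eq_zero.1 h))
    obtain ⟨i, hi⟩ := hp.separating_of_T1 _ hvne
    let q : Seminorm ℝ E := (p i).restrictScalars ℝ
    have hq : Continuous q := hp.continuous_seminorm i
    have hqT : ∀ s (x y : C), q (v (T s x).1 - v (T s y).1) ≤ q (v x.1 - v y.1) :=
      fun s x y => hT.nonexpansive i s x y
    have hqτ : ∀ τ ∈ closure (range T), ∀ x y : C,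
        q (v (τ x).1 - v (τ y).1) ≤ q (v x.1 - v y.1) := by
      intro τ hτ x y
      have hcl : IsClosed {τ : C → C | q (v (τ x).1 - v (τ y).1) ≤ q (v x.1 - v y.1)} :=
        (Fix.isClosed_pairs v hv q hq C (q (v x.1 - v y.1))).preimage
          (f := fun τ : C → C => (τ x, τ y)) ((continuous_apply x).prodMk (continuous_apply y))
      exact closure_minimal (by
        rintro _ ⟨s, rfl⟩
        exact hqT s x y) hcl hτ
    have hsymm : ∀ x y : C, q (v x.1 - v y.1) = q (v y.1 - v x.1) := fun x y => map_sub_rev q _ _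
    have hnet : ∀ ε : ℝ, 0 < ε → ∃ F : Finset C, ↑F ⊆ Y ∧
        (∀ x ∈ F, ∀ y ∈ F, x ≠ y → ε ≤ q (v x.1 - v y.1)) ∧
        ∀ y ∈ Y, ∃ x ∈ F, q (v x.1 - v y.1) < ε := by
      intro ε hε
      refine Dyn.exists_net (fun x y : C => q (v x.1 - v y.1)) (fun x => by simp) hsymm hε ?_
      intro y hy
      exact Dyn.totallyBounded isClosed_closure hcomp hT.quasi_equicontinuous himg htrans
        (fun x y : C => q (v x.1 - v y.1)) hsymm (fun x y z => by
          have : v x.1 - v z.1 = (v x.1 - v y.1) + (v y.1 - v z.1) := by abel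
          simp only [this]
          exact map_add_le_add q _ _)
        (fun x r => Fix.isClosed_ball v hv q hq C x r) hqτ
        (fun D hD ε hε => Fix.sep v hv q hq C D hD ε hε) hε y hy
    obtain ⟨r, ⟨u, huK, hur⟩, x, hx, y, hy, hxy⟩ := Fix.normal_structure v hv q hq C hYK hKconv hYc hnet
      ⟨y₁, hy₁, y₂, hy₂, lt_of_le_of_ne (apply_nonneg q _) (Ne.symm hi)⟩
    have hKr : {z : C | z ∈ K ∧ ∀ y ∈ Y, q (v z.1 - v y.1) ≤ r} = K := by
      refine hKmin _ ⟨u, huK, hur⟩ ?_ ⟨?_, ?_⟩ fun z hz => hz.1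
      · have : {z : C | z ∈ K ∧ ∀ y ∈ Y, q (v z.1 - v y.1) ≤ r} =
            K ∩ ⋂ (y : C) (_ : y ∈ Y), {z : C | q (v y.1 - v z.1) ≤ r} := by
          ext z
          simp only [mem_ofPred_eq, mem_inter_iff, mem_iInter]
          refine and_congr_right fun _ => forall₂_congr fun y _ => ?_
          rw [hsymm]
        rw [this]
        exact hKc.inter (isClosed_iInter fun y => isClosed_iInter fun _ =>
          Fix.isClosed_ball v hv q hq C y r)
      · rintro _ ⟨a, ha, rfl⟩ _ ⟨b, hb, rfl⟩ s t hs ht hst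
        obtain ⟨z, hz, hzeq⟩ := hKconv ⟨a, ha.1, rfl⟩ ⟨b, hb.1, rfl⟩ hs ht hst
        refine ⟨z, ⟨hz, fun y hy => ?_⟩, hzeq⟩
        have e1 : v z.1 - v y.1 = s • (v a.1 - v y.1) + t • (v b.1 - v y.1) := by
          rw [hzeq, map_add, map_smul, map_smul, smul_sub, smul_sub]
          have : v y.1 = s • v y.1 + t • v y.1 := by rw [← add_smul, hst, one_smul]
          nth_rewrite 1 [this]
          abel
        rw [e1]
        calc q (s • (v a.1 - v y.1) + t • (v b.1 - v y.1))
            ≤ q (s • (v a.1 - v y.1)) + q (t • (v b.1 - v y.1)) := map_add_le_add q _ _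
          _ = s * q (v a.1 - v y.1) + t * q (v b.1 - v y.1) := by
              rw [map_smul_eq_mul, map_smul_eq_mul, Real.norm_of_nonneg hs,
                Real.norm_of_nonneg ht]
          _ ≤ s * r + t * r := by
              have h1 := ha.2 y hy
              have h2 := hb.2 y hy
              gcongr
          _ = r := by rw [← add_mul, hst, one_mul]
      · rintro s z ⟨hz, hzr⟩
        refine ⟨hKinv s z hz, fun y hy => ?_⟩
        rw [← himg (T s) (subset_closure ⟨s, rfl⟩)] at hy
        obtain ⟨y', hy', rfl⟩ := hy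
        exact (hqT s z y').trans (hzr y' hy')
    have : x ∈ {z : C | z ∈ K ∧ ∀ y ∈ Y, q (v z.1 - v y.1) ≤ r} := by
      rw [hKr]
      exact hYK hx
    exact absurd (this.2 y hy) (not_le.2 hxy)
  obtain ⟨y, hy⟩ := hYne
  exact ⟨y, fun s => hsub (hYinv s y hy) hy⟩

end Pool.Agent.Results.MP_c68506_an.Nonexpansive
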